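import Pool.Agent.H947R2.TP.All

/-!
# MP_c4753b_co, Q1: convex bodies with `δ_L(K) < δ_T(K)`

For every `d ≥ 72` there is a convex body `K ⊂ ℝ^d`, symmetric about the origin, whose densest
translative packing is strictly denser than its densest lattice packing.

The definitions (in `Pool.Agent.H947R2.TP.Defs`) are the ones of the problem:

* `eball d R` is the Euclidean ball of radius `R` centred at the origin of `ℝ^d = Fin d → ℝ`,
* `tr x K = x + K`,
* `IsPacking K X`: the translates `x + K`, `x ∈ X`, have pairwise disjoint interiors,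
* `density K X = limsup_{R → ∞} vol (B_R ∩ ⋃_{x ∈ X} (x + K)) / vol B_R`,
* `IsLattice X`: `X` is the set of all integer combinations of a basis of `ℝ^d`,
* `deltaT K`, `deltaL K`: the suprema of the densities over all packings, respectively over all
  packings by a lattice of translation vectors.
-/

namespace Pool.Agent.Results.MP_c4753b_co.TranslativeBeatsLattice

open H947TP

lemma log_seven : Real.log 7 < 1.946 := by
  have h0 : (7 : ℝ) ^ 135 < 2 ^ 379 := by
    have e : (2 : ℝ) ^ 379 = 2 ^ 190 * 2 ^ 189 := by rw [← pow_add]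
    rw [e]
    norm_num
  have h1 : Real.log ((7 : ℝ) ^ 135) < Real.log ((2 : ℝ) ^ 379) :=
    Real.log_lt_log (by positivity) h0
  rw [Real.log_pow, Real.log_pow] at h1
  have h2 := Real.log_two_lt_d9
  push_cast at h1
  linarith

/-- **Theorem.** For every `d ≥ 72` there is a convex body `K` in `ℝ^d` (compact, convex, with
nonempty interior), symmetric about the origin, with `δ_L(K) < δ_T(K)`. -/
theorem result : ∀ d : ℕ, 72 ≤ d → ∃ K : Set (Fin d → ℝ), Convex ℝ K ∧ IsCompact K ∧
    (interior K).Nonempty ∧ (∀ x ∈ K, -x ∈ K) ∧ deltaL K < deltaT K :=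
  main_of P1 (P2 P1) (P3 P1) (E2 E1 P1) (V2 V1) (V3 V1) allC7 allL7 G1 log_seven

end Pool.Agent.Results.MP_c4753b_co.TranslativeBeatsLattice
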